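import Pool.Agent.X102.BS7

/-! James' theorem (in the form: a non-reflexive real Banach space has a bounded functional which
does not attain its norm) and normalized weak*-null sequences of functionals. -/

set_option autoImplicit false

namespace Pool.Agent.W2helper15.WMP

open Filter Topology Set

variable {X : Type*} [NormedAddCommGroup X] [NormedSpace ℝ X]

/-- James' theorem. -/
theorem james_real [CompleteSpace X]
    (hX : ¬ Function.Surjective (NormedSpace.inclusionInDoubleDual ℝ X)) :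
    ∃ ψ : X →L[ℝ] ℝ, ∀ x, ‖x‖ ≤ 1 → ψ x < ‖ψ‖ := by
  obtain ⟨h, x, C, hC, hx, -, h4, h5⟩ := Pool.Agent.X102.BSP.exists_seqs' hX 0
  have hne : Nonempty {x : X // ‖x‖ ≤ 1} := ⟨⟨0, by simp⟩⟩
  have hM : ∀ g ∈ convexHull ℝ (range h), ∃ w : {x : X // ‖x‖ ≤ 1}, ∃ N, ∀ j, N ≤ j →
      h j (w : X) ≤ g (w : X) - 1 := by
    intro g hg
    have hsub : convexHull ℝ (range h) ⊆
        {g : X →L[ℝ] ℝ | ∃ N0, ∀ i, N0 ≤ i → 15 ≤ g (x i)} := by
      apply convexHull_min
      · rintro _ ⟨j, rfl⟩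
        exact ⟨j, fun i hi => h4 j i hi⟩
      · rintro g1 ⟨N1, hN1⟩ g2 ⟨N2, hN2⟩ a b ha hb hab
        refine ⟨max N1 N2, fun i hi => ?_⟩
        show 15 ≤ a * g1 (x i) + b * g2 (x i)
        have h6 := hN1 i ((le_max_left _ _).trans hi)
        have h7 := hN2 i ((le_max_right _ _).trans hi)
        nlinarith
    obtain ⟨i, hgi⟩ := hsub hg
    have hgi' := hgi i le_rfl
    refine ⟨⟨x i, hx i⟩, i + 1, fun j hj => ?_⟩
    have h7 := abs_le.1 (h5 j i (by omega))
    show h j (x i) ≤ g (x i) - 1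
    linarith [h7.2]
  obtain ⟨ψ, hψ⟩ := Pool.Agent.X102.BSP.james (W := {x : X // ‖x‖ ≤ 1}) (e := Subtype.val)
    (fun w => w.2) h hC hM
  refine ⟨ψ, fun x hx => ?_⟩
  obtain ⟨w', hw'⟩ := hψ ⟨x, hx⟩
  refine lt_of_lt_of_le hw' ?_
  calc ψ w'.1 ≤ ‖ψ w'.1‖ := le_abs_self _
    _ ≤ ‖ψ‖ * ‖w'.1‖ := ψ.le_opNorm _
    _ ≤ ‖ψ‖ := mul_le_of_le_one_right (norm_nonneg _) w'.2

/-- A finite set of vectors in the unit ball which is `1/2`-norming for the span of a finite set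
of functionals. -/
theorem exists_norming (G : Finset (X →L[ℝ] ℝ)) :
    ∃ Z : Finset X, (∀ z ∈ Z, ‖z‖ ≤ 1) ∧
      ∀ h ∈ Submodule.span ℝ (G : Set (X →L[ℝ] ℝ)), ‖h‖ ≤ 1 → ∀ c : ℝ, 0 ≤ c →
        (∀ z ∈ Z, |h z| ≤ c) → ‖h‖ ≤ c + 1 / 4 := by
  classical
  set V := Submodule.span ℝ (G : Set (X →L[ℝ] ℝ)) with hV
  have hfd : FiniteDimensional ℝ V := FiniteDimensional.span_finset ℝ G
  have hcomp : IsCompact (Metric.closedBall (0 : V) 1) := isCompact_closedBall 0 1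
  have hch : ∀ h : V, ∃ z : X, ‖z‖ ≤ 1 ∧ ‖(h : X →L[ℝ] ℝ)‖ - 1 / 16 ≤ |(h : X →L[ℝ] ℝ) z| := by
    intro h
    by_cases h0 : ‖(h : X →L[ℝ] ℝ)‖ - 1 / 16 < 0
    · exact ⟨0, by simp, by simpa using h0.le⟩
    · push Not at h0
      by_contra hcon
      push Not at hcon
      have := ContinuousLinearMap.opNorm_le_of_unit_norm (f := (h : X →L[ℝ] ℝ)) h0
        (fun x hx => (hcon x hx.le).le)
      linarith
  choose ζ hζ1 hζ2 using hch
  obtain ⟨t, -, ht⟩ := hcomp.elim_nhds_subcover (fun h : V => Metric.ball h (1 / 16))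
    (fun h _ => Metric.ball_mem_nhds h (by norm_num))
  refine ⟨t.image ζ, ?_, ?_⟩
  · intro z hz
    obtain ⟨h, -, rfl⟩ := Finset.mem_image.1 hz
    exact hζ1 h
  · intro h hh hh1 c hc hz
    have hmem0 : (⟨h, hh⟩ : V) ∈ Metric.closedBall (0 : V) 1 := by
      refine Metric.mem_closedBall.2 ?_
      show dist h (0 : X →L[ℝ] ℝ) ≤ 1
      rw [dist_zero_right]
      exact hh1
    obtain ⟨h', hh', hmem⟩ : ∃ h' ∈ t, (⟨h, hh⟩ : V) ∈ Metric.ball h' (1 / 16) := by
      have := ht hmem0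
      simpa using this
    have hd : ‖h - (h' : X →L[ℝ] ℝ)‖ < 1 / 16 := by
      have h5 : dist (⟨h, hh⟩ : V) h' < 1 / 16 := Metric.mem_ball.1 hmem
      have h6 : dist h (h' : X →L[ℝ] ℝ) < 1 / 16 := h5
      rwa [dist_eq_norm] at h6
    have h1 := hz (ζ h') (Finset.mem_image_of_mem ζ hh')
    have h2 := hζ2 h'
    have h3 : |(h' : X →L[ℝ] ℝ) (ζ h')| ≤ |h (ζ h')| + 1 / 16 := by
      have h4 : (h' : X →L[ℝ] ℝ) (ζ h') = h (ζ h') - (h - (h' : X →L[ℝ] ℝ)) (ζ h') := by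
        simp
      rw [h4]
      refine (abs_sub _ _).trans ?_
      have h5 := (h - (h' : X →L[ℝ] ℝ)).le_opNorm (ζ h')
      rw [Real.norm_eq_abs] at h5
      have h6 : ‖h - (h' : X →L[ℝ] ℝ)‖ * ‖ζ h'‖ ≤ 1 / 16 * 1 :=
        mul_le_mul hd.le (hζ1 h') (norm_nonneg _) (by norm_num)
      linarith
    have h4 : ‖h‖ ≤ ‖(h' : X →L[ℝ] ℝ)‖ + 1 / 16 := by
      have h5 : h = (h - (h' : X →L[ℝ] ℝ)) + h' := by abel
      have h6 := norm_add_le (h - (h' : X →L[ℝ] ℝ)) (h' : X →L[ℝ] ℝ)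
      rw [← h5] at h6
      linarith
    linarith

/-- Hahn-Banach separation of a point from a closed subspace. -/
theorem exists_functional (V : Submodule ℝ X) (hV : IsClosed (V : Set X)) {x : X} (hx : x ∉ V) :
    ∃ f : X →L[ℝ] ℝ, f x ≠ 0 ∧ ∀ v ∈ V, f v = 0 := by
  have := hV
  have h1 : ‖(V.mkQL x : X ⧸ V)‖ ≠ 0 := by
    rw [norm_ne_zero_iff]
    intro h
    rw [Submodule.mkQL_apply, Submodule.mkQ_apply, Submodule.Quotient.mk_eq_zero] at h
    exact hx h
  obtain ⟨f, -, hf⟩ := exists_dual_vector ℝ (V.mkQL x : X ⧸ V) h1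
  refine ⟨f.comp V.mkQL, ?_, fun v hv => ?_⟩
  · show f (V.mkQL x) ≠ 0
    rw [hf]
    simpa using h1
  · show f (V.mkQL v) = 0
    have : V.mkQL v = 0 := by
      rw [Submodule.mkQL_apply, Submodule.mkQ_apply, Submodule.Quotient.mk_eq_zero]
      exact hv
    rw [this, map_zero]

/-- A finite set of vectors does not separate the functionals of an infinite-dimensional space. -/
theorem exists_annihilator (hX : ¬ FiniteDimensional ℝ X) (Z : Finset X) :
    ∃ g : X →L[ℝ] ℝ, ‖g‖ = 1 ∧ ∀ z ∈ Z, g z = 0 := by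
  classical
  set V := Submodule.span ℝ (Z : Set X) with hV
  have hfd : FiniteDimensional ℝ V := FiniteDimensional.span_finset ℝ Z
  have hne : ∃ x : X, x ∉ V := by
    by_contra hcon
    push Not at hcon
    apply hX
    have : V = ⊤ := by
      rw [eq_top_iff]; intro x _; exact hcon x
    rw [this] at hfd
    exact Module.Finite.equiv (Submodule.topEquiv (R := ℝ) (M := X))
  obtain ⟨x, hx⟩ := hne
  obtain ⟨f, hf0, hf⟩ := exists_functional V V.closed_of_finiteDimensional hx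
  have hf1 : f ≠ 0 := fun h => hf0 (by rw [h]; rfl)
  have hn : ‖f‖ ≠ 0 := norm_ne_zero_iff.2 hf1
  refine ⟨‖f‖⁻¹ • f, ?_, fun z hz => ?_⟩
  · rw [norm_smul, norm_inv, norm_norm, inv_mul_cancel₀ hn]
  · show ‖f‖⁻¹ * f z = 0
    rw [hf z (Submodule.subset_span hz), mul_zero]

/-- In a reflexive infinite-dimensional real Banach space, there is a normalized sequence of
functionals which tends to `0` at every point. -/
theorem exists_null_of_reflexive (hX : ¬ FiniteDimensional ℝ X)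
    (hr : Function.Surjective (NormedSpace.inclusionInDoubleDual ℝ X)) :
    ∃ g : ℕ → (X →L[ℝ] ℝ), (∀ n, ‖g n‖ = 1) ∧ ∀ z, Tendsto (fun n => g n z) atTop (𝓝 0) := by
  classical
  obtain ⟨a, ha1, ha2⟩ := exists_seq_of_forall_finset_exists
    (fun a : (X →L[ℝ] ℝ) × Finset (X →L[ℝ] ℝ) × Finset X => ‖a.1‖ = 1 ∧ a.1 ∈ a.2.1 ∧
      (∀ z ∈ a.2.2, ‖z‖ ≤ 1) ∧
      ∀ h ∈ Submodule.span ℝ (a.2.1 : Set (X →L[ℝ] ℝ)), ‖h‖ ≤ 1 → ∀ c : ℝ, 0 ≤ c →
        (∀ z ∈ a.2.2, |h z| ≤ c) → ‖h‖ ≤ c + 1 / 4)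
    (fun a b => a.2.1 ⊆ b.2.1 ∧ ∀ z ∈ a.2.2, b.1 z = 0) (by
      intro s _
      obtain ⟨g, hg1, hg2⟩ := exists_annihilator hX (s.biUnion fun a => a.2.2)
      obtain ⟨Z, hZ1, hZ2⟩ := exists_norming (insert g (s.biUnion fun a => a.2.1))
      refine ⟨(g, insert g (s.biUnion fun a => a.2.1), Z), ⟨hg1, Finset.mem_insert_self _ _, hZ1,
        hZ2⟩, fun a ha => ⟨?_, ?_⟩⟩
      · intro h hh
        exact Finset.mem_insert_of_mem (Finset.mem_biUnion.2 ⟨a, ha, hh⟩)
      · intro z hz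
        exact hg2 z (Finset.mem_biUnion.2 ⟨a, ha, hz⟩))
  have hmono : ∀ m n, m ≤ n → (a m).2.1 ⊆ (a n).2.1 := by
    intro m n hmn
    rcases Nat.lt_or_eq_of_le hmn with h | h
    · exact (ha2 m n h).1
    · rw [h]
  refine ⟨fun n => (a n).1, fun n => (ha1 n).1, fun z => ?_⟩
  -- every ultrafilter limit vanishes
  by_contra hcon
  rw [Metric.tendsto_atTop] at hcon
  push Not at hcon
  obtain ⟨ε, hε, hcon⟩ := hcon
  have hfreq : ∃ᶠ n in atTop, ε ≤ dist ((a n).1 z) 0 := by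
    rw [frequently_atTop]
    intro N
    obtain ⟨n, hn1, hn2⟩ := hcon N
    exact ⟨n, hn1, hn2⟩
  obtain ⟨φ, hφ1, hφ2⟩ := extraction_of_frequently_atTop hfreq
  -- the limit along the hyperfilter
  have hhyp : (hyperfilter ℕ : Filter ℕ) ≤ atTop := Nat.hyperfilter_le_atTop
  have hb : ∀ k x, |(a (φ k)).1 x| ≤ 1 * ‖x‖ := by
    intro k x
    have h1 := ((a (φ k)).1).le_opNorm x
    rwa [Real.norm_eq_abs, (ha1 (φ k)).1] at h1
  have hlimx : ∀ x, ∃ l, Tendsto (fun k => (a (φ k)).1 x) (hyperfilter ℕ : Filter ℕ) (𝓝 l) := by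
    intro x
    obtain ⟨l, -, hl⟩ := (isCompact_Icc (a := -(1 * ‖x‖)) (b := 1 * ‖x‖)).ultrafilter_le_nhds
      ((hyperfilter ℕ).map (fun k => (a (φ k)).1 x)) (by
        rw [Filter.le_principal_iff]
        exact Filter.mem_map.2 (Filter.univ_mem' fun k => abs_le.1 (hb k x)))
    exact ⟨l, hl⟩
  choose G0 hG0 using hlimx
  let g0l : X →ₗ[ℝ] ℝ :=
    { toFun := G0
      map_add' := fun x y => tendsto_nhds_unique (hG0 (x + y))
        (((hG0 x).add (hG0 y)).congr fun k => (map_add _ x y).symm)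
      map_smul' := fun c x => tendsto_nhds_unique (hG0 (c • x))
        (((hG0 x).const_mul c).congr fun k => (map_smul _ c x).symm) }
  have hg0b : ∀ x, ‖g0l x‖ ≤ 1 * ‖x‖ := by
    intro x
    rw [Real.norm_eq_abs]
    exact le_of_tendsto (hG0 x).abs (Eventually.of_forall fun k => hb k x)
  let g0 : X →L[ℝ] ℝ := g0l.mkContinuous 1 hg0b
  have hg0 : ∀ x, Tendsto (fun k => (a (φ k)).1 x) (hyperfilter ℕ : Filter ℕ) (𝓝 (g0 x)) := hG0
  have hg0n : ‖g0‖ ≤ 1 := LinearMap.mkContinuous_norm_le _ zero_le_one _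
  have hvan : ∀ k, ∀ w ∈ (a k).2.2, g0 w = 0 := by
    intro k w hw
    refine tendsto_nhds_unique (hg0 w) ?_
    refine Tendsto.congr' ?_ tendsto_const_nhds
    filter_upwards [hhyp (eventually_gt_atTop k)] with n hn
    exact ((ha2 k (φ n) (lt_of_lt_of_le hn (hφ1.id_le n))).2 w hw).symm
  -- `g0` is in the closed span
  set S : Submodule ℝ (X →L[ℝ] ℝ) := Submodule.span ℝ (⋃ k, ((a k).2.1 : Set (X →L[ℝ] ℝ))) with hS
  have hmem : g0 ∈ S.topologicalClosure := by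
    by_contra hnot
    obtain ⟨Φ, hΦ1, hΦ2⟩ := exists_functional S.topologicalClosure S.isClosed_topologicalClosure hnot
    obtain ⟨x, hx⟩ := hr Φ
    have hx' : ∀ f : X →L[ℝ] ℝ, Φ f = f x := by
      intro f
      rw [← hx]
      rfl
    apply hΦ1
    rw [hx']
    refine tendsto_nhds_unique (hg0 x) ?_
    refine Tendsto.congr (fun n => ?_) tendsto_const_nhds
    have h1 : (a (φ n)).1 ∈ S.topologicalClosure := by
      apply Submodule.le_topologicalClosure
      exact Submodule.subset_span (mem_iUnion.2 ⟨φ n, (ha1 (φ n)).2.1⟩)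
    have h2 := hΦ2 _ h1
    rw [hx'] at h2
    exact h2.symm
  have hdir : ∀ h ∈ S, ∃ k, h ∈ Submodule.span ℝ ((a k).2.1 : Set (X →L[ℝ] ℝ)) := by
    intro h hh
    induction hh using Submodule.span_induction with
    | mem x hx =>
      obtain ⟨k, hk⟩ := mem_iUnion.1 hx
      exact ⟨k, Submodule.subset_span hk⟩
    | zero => exact ⟨0, Submodule.zero_mem _⟩
    | add x y _ _ hx hy =>
      obtain ⟨k, hk⟩ := hx
      obtain ⟨l, hl⟩ := hy
      refine ⟨max k l, Submodule.add_mem _ ?_ ?_⟩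
      · exact Submodule.span_mono (by exact_mod_cast hmono k _ (le_max_left _ _)) hk
      · exact Submodule.span_mono (by exact_mod_cast hmono l _ (le_max_right _ _)) hl
    | smul c x _ hx =>
      obtain ⟨k, hk⟩ := hx
      exact ⟨k, Submodule.smul_mem _ _ hk⟩
  have hzero : g0 = 0 := by
    by_contra hne
    have hn : 0 < ‖g0‖ := norm_pos_iff.2 hne
    set u : X →L[ℝ] ℝ := (1 / 2 * ‖g0‖⁻¹) • g0 with hu
    have hun : ‖u‖ = 1 / 2 := by
      rw [hu, norm_smul, norm_mul, norm_inv, norm_norm, mul_assoc, inv_mul_cancel₀ hn.ne']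
      norm_num
    have humem : u ∈ S.topologicalClosure := Submodule.smul_mem _ _ hmem
    have humem' : u ∈ closure (S : Set (X →L[ℝ] ℝ)) := humem
    obtain ⟨h, hhS, hhd⟩ := Metric.mem_closure_iff.1 humem' (1 / 16) (by norm_num)
    rw [dist_eq_norm] at hhd
    obtain ⟨k, hk⟩ := hdir h hhS
    have h1 : ‖h‖ ≤ 1 := by
      have : h = u - (u - h) := by abel
      have h2 := norm_sub_le u (u - h)
      rw [← this, hun] at h2
      linarith
    have h2 : 7 / 16 ≤ ‖h‖ := by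
      have : u = h + (u - h) := by abel
      have h2 := norm_add_le h (u - h)
      rw [← this, hun] at h2
      linarith
    have h3 : ∀ z ∈ (a k).2.2, |h z| ≤ 1 / 16 := by
      intro z hz
      have h4 : h z = -((u - h) z) := by
        have h5 : u z = 0 := by
          show (1 / 2 * ‖g0‖⁻¹) * g0 z = 0
          rw [hvan k z hz, mul_zero]
        show h z = -(u z - h z)
        rw [h5]; ring
      rw [h4, abs_neg]
      have h5 := (u - h).le_opNorm z
      rw [Real.norm_eq_abs] at h5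
      have h6 : ‖u - h‖ * ‖z‖ ≤ 1 / 16 * 1 :=
        mul_le_mul hhd.le ((ha1 k).2.2.1 z hz) (norm_nonneg _) (by norm_num)
      linarith
    have h4 := (ha1 k).2.2.2 h hk h1 (1 / 16) (by norm_num) h3
    linarith
  have hlast : ε ≤ |g0 z| := by
    refine ge_of_tendsto (hg0 z).abs (Eventually.of_forall fun k => ?_)
    have := hφ2 k
    rwa [Real.dist_eq, sub_zero] at this
  rw [hzero] at hlast
  simp at hlast
  linarith

/-- If every functional on the infinite-dimensional real Banach space `X` attains its norm, there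
is a normalized sequence of functionals which tends to `0` at every point. -/
theorem exists_null_real [CompleteSpace X] (hX : ¬ FiniteDimensional ℝ X)
    (hNA : ∀ ψ : X →L[ℝ] ℝ, ∃ x, ‖x‖ ≤ 1 ∧ ‖ψ‖ ≤ ψ x) :
    ∃ g : ℕ → (X →L[ℝ] ℝ), (∀ n, ‖g n‖ = 1) ∧ ∀ z, Tendsto (fun n => g n z) atTop (𝓝 0) := by
  by_cases hr : Function.Surjective (NormedSpace.inclusionInDoubleDual ℝ X)
  · exact exists_null_of_reflexive hX hr
  · exfalso
    obtain ⟨ψ, hψ⟩ := james_real hr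
    obtain ⟨x, hx1, hx2⟩ := hNA ψ
    exact absurd (hψ x hx1) (not_lt.2 hx2)

end Pool.Agent.W2helper15.WMP
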