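import Pool.Agent.W2helper15.WMP1

/-! The weak maximizing property for operators into the space of bounded sequences forces the
domain to be finite-dimensional. -/

set_option autoImplicit false

namespace Pool.Agent.W2helper15.WMP

open Filter Topology Set
open scoped BoundedContinuousFunction

universe u v w

/-- The pair `(E, F)` has the weak maximizing property: every bounded operator `T : E → F` that has
a maximizing sequence (unit vectors `x n` with `‖T (x n)‖ → ‖T‖`) which is not weakly null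
attains its norm. -/
def HasWMP (𝕜 : Type u) [RCLike 𝕜] (E : Type v) (F : Type w) [NormedAddCommGroup E]
    [NormedSpace 𝕜 E] [NormedAddCommGroup F] [NormedSpace 𝕜 F] : Prop :=
  ∀ T : E →L[𝕜] F,
    (∃ x : ℕ → E, (∀ n, ‖x n‖ = 1) ∧ Tendsto (fun n => ‖T (x n)‖) atTop (𝓝 ‖T‖) ∧
      ¬ ∀ φ : E →L[𝕜] 𝕜, Tendsto (fun n => φ (x n)) atTop (𝓝 0)) →
    ∃ x : E, ‖x‖ = 1 ∧ ‖T x‖ = ‖T‖

variable {𝕜 : Type u} [RCLike 𝕜] {E : Type v} [NormedAddCommGroup E] [NormedSpace 𝕜 E]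

/-- The operator `z ↦ (f n z)`. -/
noncomputable def seqOp (f : ℕ → E →L[𝕜] 𝕜) (hf : ∀ n, ‖f n‖ ≤ 1) : E →L[𝕜] (ℕ →ᵇ 𝕜) :=
  LinearMap.mkContinuous
    { toFun := fun z => BoundedContinuousFunction.ofNormedAddCommGroupDiscrete (fun n => f n z)
        ‖z‖ (fun n => ((f n).le_opNorm z).trans (mul_le_of_le_one_left (norm_nonneg _) (hf n)))
      map_add' := fun x y => by
        ext n
        exact map_add (f n) x y
      map_smul' := fun c x => by
        ext n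
        exact map_smul (f n) c x } 1 (fun z => by
    rw [one_mul]
    exact (BoundedContinuousFunction.norm_le (norm_nonneg z)).2
      (fun n => ((f n).le_opNorm z).trans (mul_le_of_le_one_left (norm_nonneg _) (hf n))))

@[simp] theorem seqOp_apply (f : ℕ → E →L[𝕜] 𝕜) (hf : ∀ n, ‖f n‖ ≤ 1) (z : E) (n : ℕ) :
    seqOp f hf z n = f n z := rfl

theorem norm_seqOp_le (f : ℕ → E →L[𝕜] 𝕜) (hf : ∀ n, ‖f n‖ ≤ 1) : ‖seqOp f hf‖ ≤ 1 :=
  LinearMap.mkContinuous_norm_le _ zero_le_one _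

/-- Norming points of a sequence of functionals which is asymptotically of norm less than one at
every point are weakly null. -/
theorem weakly_null (hW : HasWMP 𝕜 E (ℕ →ᵇ 𝕜)) (f : ℕ → E →L[𝕜] 𝕜) (hf : ∀ n, ‖f n‖ ≤ 1)
    (hlim : ∀ z, ‖z‖ = 1 → ∃ c : ℝ, c < 1 ∧ ∀ᶠ n in atTop, ‖f n z‖ ≤ c)
    (x : ℕ → E) (hx : ∀ n, ‖x n‖ = 1) (hfx : Tendsto (fun n => ‖f n (x n)‖) atTop (𝓝 1)) :
    ∀ φ : E →L[𝕜] 𝕜, Tendsto (fun n => φ (x n)) atTop (𝓝 0) := by
  by_contra hnot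
  set a : ℕ → ℝ := fun n => 1 - 1 / ((n : ℝ) + 2) with ha
  have ha0 : ∀ n, 0 ≤ a n := fun n => by
    have h1 : (0 : ℝ) ≤ n := Nat.cast_nonneg n
    have h2 : 1 / ((n : ℝ) + 2) ≤ 1 := by
      rw [div_le_one (by linarith)]; linarith
    simp only [ha]; linarith
  have ha1 : ∀ n, a n < 1 := fun n => by
    have h1 : (0 : ℝ) ≤ n := Nat.cast_nonneg n
    have h2 : 0 < 1 / ((n : ℝ) + 2) := by positivity
    simp only [ha]; linarith
  have hamono : ∀ m n, m ≤ n → a m ≤ a n := fun m n hmn => by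
    have h1 : (0 : ℝ) ≤ m := Nat.cast_nonneg m
    have h2 : (m : ℝ) ≤ n := by exact_mod_cast hmn
    have h3 : 1 / ((n : ℝ) + 2) ≤ 1 / ((m : ℝ) + 2) :=
      one_div_le_one_div_of_le (by linarith) (by linarith)
    simp only [ha]; linarith
  have halim : Tendsto a atTop (𝓝 1) := by
    have h1 : Tendsto (fun n : ℕ => 1 / ((n : ℝ) + 2)) atTop (𝓝 0) := by
      have h2 : Tendsto (fun n : ℕ => (n : ℝ) + 2) atTop atTop :=
        tendsto_atTop_add_const_right _ _ tendsto_natCast_atTop_atTop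
      exact h2.inv_tendsto_atTop.congr fun n => by simp
    have h2 := h1.const_sub 1
    simpa [ha] using h2
  have hna : ∀ n, ‖((a n : ℝ) : 𝕜)‖ = a n := fun n => by
    rw [RCLike.norm_ofReal, abs_of_nonneg (ha0 n)]
  have hf' : ∀ n, ‖((a n : ℝ) : 𝕜) • f n‖ ≤ 1 := fun n => by
    rw [norm_smul, hna]
    exact mul_le_one₀ (ha1 n).le (norm_nonneg _) (hf n)
  set T := seqOp (fun n => ((a n : ℝ) : 𝕜) • f n) hf' with hT
  have hTz : ∀ z n, ‖T z n‖ = a n * ‖f n z‖ := fun z n => by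
    show ‖((a n : ℝ) : 𝕜) • f n z‖ = _
    rw [norm_smul, hna]
  have hTn1 : ‖T‖ ≤ 1 := norm_seqOp_le _ _
  have hTx : ∀ n, ‖T (x n)‖ ≤ ‖T‖ := fun n => by
    have := T.le_opNorm (x n)
    rwa [hx n, mul_one] at this
  have hlow : ∀ n, a n * ‖f n (x n)‖ ≤ ‖T (x n)‖ := fun n => by
    rw [← hTz]
    exact (T (x n)).norm_coe_le_norm n
  have hlim1 : Tendsto (fun n => a n * ‖f n (x n)‖) atTop (𝓝 1) := by
    simpa using halim.mul hfx
  have hTn : ‖T‖ = 1 := by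
    refine le_antisymm hTn1 ?_
    exact le_of_tendsto hlim1 (Eventually.of_forall fun n => (hlow n).trans (hTx n))
  have hmax : Tendsto (fun n => ‖T (x n)‖) atTop (𝓝 ‖T‖) := by
    rw [hTn]
    refine tendsto_of_tendsto_of_tendsto_of_le_of_le hlim1 tendsto_const_nhds hlow ?_
    intro n
    exact (hTx n).trans hTn1
  obtain ⟨z, hz1, hz2⟩ := hW T ⟨x, hx, hmax, hnot⟩
  obtain ⟨c, hc1, hc2⟩ := hlim z hz1
  obtain ⟨N, hN⟩ := eventually_atTop.1 hc2
  have hle : ‖T z‖ ≤ max (max c 0) (a N) := by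
    refine (BoundedContinuousFunction.norm_le (le_max_of_le_left (le_max_right _ _))).2 fun n => ?_
    rw [hTz]
    have hfz : ‖f n z‖ ≤ 1 := by
      have := (f n).le_opNorm z
      rw [hz1, mul_one] at this
      exact this.trans (hf n)
    rcases le_total N n with h | h
    · refine le_max_of_le_left (le_max_of_le_left ?_)
      exact (mul_le_of_le_one_left (norm_nonneg _) (ha1 n).le).trans (hN n h)
    · refine le_max_of_le_right ?_
      exact (mul_le_of_le_one_right (ha0 n) hfz).trans (hamono n N h)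
  rw [hz2, hTn] at hle
  have h1 : max (max c 0) (a N) < 1 := max_lt (max_lt hc1 one_pos) (ha1 N)
  linarith

/-- unit vectors which almost norm a functional -/
theorem exists_unit_norming [Nontrivial E] (h : E →L[𝕜] 𝕜) {δ : ℝ} (hδ : 0 < δ) :
    ∃ x : E, ‖x‖ = 1 ∧ ‖h‖ - δ ≤ ‖h x‖ := by
  by_contra hcon
  push Not at hcon
  obtain ⟨x0, hx0⟩ : ∃ x : E, ‖x‖ = 1 := by
    obtain ⟨y, hy⟩ := exists_ne (0 : E)
    have hn : ‖y‖ ≠ 0 := norm_ne_zero_iff.2 hy
    refine ⟨((‖y‖⁻¹ : ℝ) : 𝕜) • y, ?_⟩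
    rw [norm_smul, RCLike.norm_ofReal, abs_of_nonneg (by positivity), inv_mul_cancel₀ hn]
  have h0 : 0 < ‖h‖ - δ := (norm_nonneg _).trans_lt (hcon x0 hx0)
  have h1 : ‖h‖ ≤ ‖h‖ - δ := by
    refine ContinuousLinearMap.opNorm_le_bound _ h0.le fun x => ?_
    rcases eq_or_ne x 0 with rfl | hx
    · simp
    · have hn : 0 < ‖x‖ := norm_pos_iff.2 hx
      have h2 := hcon (((‖x‖⁻¹ : ℝ) : 𝕜) • x) (by
        rw [norm_smul, RCLike.norm_ofReal, abs_of_nonneg (by positivity), inv_mul_cancel₀ hn.ne'])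
      rw [map_smul, norm_smul, RCLike.norm_ofReal, abs_of_nonneg (by positivity)] at h2
      rw [inv_mul_lt_iff₀ hn, mul_comm] at h2
      exact h2.le
  linarith

/-- The key estimate: adding a weak*-null normalized sequence to a functional does not increase
the norm beyond the maximum. -/
theorem norm_add_le_max [Nontrivial E] (hW : HasWMP 𝕜 E (ℕ →ᵇ 𝕜)) (g : ℕ → E →L[𝕜] 𝕜)
    (hg : ∀ n, ‖g n‖ = 1) (hg0 : ∀ z, Tendsto (fun n => g n z) atTop (𝓝 0)) (f : E →L[𝕜] 𝕜)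
    {ε : ℝ} (hε : 0 < ε) : ∀ᶠ n in atTop, ‖f + g n‖ ≤ max ‖f‖ 1 + ε := by
  by_contra hcon
  rw [not_eventually] at hcon
  obtain ⟨φ, hφ1, hφ2⟩ := extraction_of_frequently_atTop hcon
  push Not at hφ2
  set r : ℕ → ℝ := fun k => ‖f + g (φ k)‖ with hr
  have hr1 : ∀ k, 1 + ε < r k := fun k =>
    lt_of_le_of_lt (add_le_add_left (le_max_right _ _) _) (hφ2 k)
  have hr2 : ∀ k, ‖f‖ + ε < r k := fun k =>
    lt_of_le_of_lt (add_le_add_left (le_max_left _ _) _) (hφ2 k)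
  have hr0 : ∀ k, 0 < r k := fun k => by linarith [hr1 k]
  have hchx : ∀ k : ℕ, ∃ x : E, ‖x‖ = 1 ∧ r k - 1 / ((k : ℝ) + 1) ≤ ‖(f + g (φ k)) x‖ :=
    fun k => exists_unit_norming _ (by positivity)
  choose x hx1 hx2 using hchx
  set F : ℕ → E →L[𝕜] 𝕜 := fun k => (((r k)⁻¹ : ℝ) : 𝕜) • (f + g (φ k)) with hF
  have hrn : ∀ k, ‖(((r k)⁻¹ : ℝ) : 𝕜)‖ = (r k)⁻¹ := fun k => by
    rw [RCLike.norm_ofReal, abs_of_nonneg (inv_nonneg.2 (hr0 k).le)]
  have hFn : ∀ k, ‖F k‖ ≤ 1 := fun k => by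
    show ‖(((r k)⁻¹ : ℝ) : 𝕜) • (f + g (φ k))‖ ≤ 1
    rw [norm_smul, hrn]
    exact (inv_mul_cancel₀ (hr0 k).ne').le
  have hFz : ∀ k z, ‖F k z‖ = (r k)⁻¹ * ‖(f + g (φ k)) z‖ := fun k z => by
    show ‖(((r k)⁻¹ : ℝ) : 𝕜) • (f + g (φ k)) z‖ = _
    rw [norm_smul, hrn]
  have hone : Tendsto (fun k : ℕ => 1 / ((k : ℝ) + 1)) atTop (𝓝 0) :=
    tendsto_one_div_add_atTop_nhds_zero_nat
  have hnull : ∀ ψ : E →L[𝕜] 𝕜, Tendsto (fun n => ψ (x n)) atTop (𝓝 0) := by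
    refine weakly_null hW F hFn ?_ x hx1 ?_
    · intro z hz
      refine ⟨(‖f‖ + ε / 2) / (‖f‖ + ε), ?_, ?_⟩
      · rw [div_lt_one (by positivity)]; linarith
      · have h1 : Tendsto (fun k => ‖g (φ k) z‖) atTop (𝓝 0) := by
          have := ((hg0 z).comp hφ1.tendsto_atTop).norm
          simpa using this
        filter_upwards [h1.eventually_lt_const (show (0 : ℝ) < ε / 2 by positivity)] with k hk
        rw [hFz, inv_mul_eq_div]
        have h2 : ‖(f + g (φ k)) z‖ ≤ ‖f‖ + ε / 2 := by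
          have h3 : ‖f z‖ ≤ ‖f‖ := by
            have := f.le_opNorm z
            rwa [hz, mul_one] at this
          calc ‖(f + g (φ k)) z‖ = ‖f z + g (φ k) z‖ := rfl
            _ ≤ ‖f z‖ + ‖g (φ k) z‖ := norm_add_le _ _
            _ ≤ ‖f‖ + ε / 2 := by linarith
        exact div_le_div₀ (by positivity) h2 (by positivity) (hr2 k).le
    · refine tendsto_of_tendsto_of_tendsto_of_le_of_le (g := fun k : ℕ => 1 - 1 / ((k : ℝ) + 1))
        (h := fun _ => (1 : ℝ)) ?_ tendsto_const_nhds ?_ ?_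
      · simpa using hone.const_sub 1
      · intro k
        show 1 - 1 / ((k : ℝ) + 1) ≤ ‖F k (x k)‖
        rw [hFz]
        have h1 := mul_le_mul_of_nonneg_left (hx2 k) (inv_nonneg.2 (hr0 k).le)
        rw [mul_sub, inv_mul_cancel₀ (hr0 k).ne'] at h1
        have h2 : (r k)⁻¹ * (1 / ((k : ℝ) + 1)) ≤ 1 / ((k : ℝ) + 1) := by
          apply mul_le_of_le_one_left (by positivity)
          exact inv_le_one_of_one_le₀ (by linarith [hr1 k])
        linarith
      · intro k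
        have := (F k).le_opNorm (x k)
        rw [hx1, mul_one] at this
        exact this.trans (hFn k)
  have h1 : Tendsto (fun k => ‖f (x k)‖ + 1 / ((k : ℝ) + 1)) atTop (𝓝 0) := by
    simpa using (hnull f).norm.add hone
  obtain ⟨k, hk⟩ := (h1.eventually_lt_const hε).exists
  have h2 : ‖(f + g (φ k)) (x k)‖ ≤ ‖f (x k)‖ + 1 := by
    have h3 : ‖g (φ k) (x k)‖ ≤ 1 := by
      have := (g (φ k)).le_opNorm (x k)
      rwa [hx1, mul_one, hg] at this
    calc ‖(f + g (φ k)) (x k)‖ = ‖f (x k) + g (φ k) (x k)‖ := rfl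
      _ ≤ ‖f (x k)‖ + ‖g (φ k) (x k)‖ := norm_add_le _ _
      _ ≤ _ := by linarith
  have h3 := hx2 k
  have h4 := hr1 k
  linarith

end Pool.Agent.W2helper15.WMP
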