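import Pool.Agent.W2helper15.WMP2

/-! The weak maximizing property for operators into the space of bounded sequences forces the
domain to be finite-dimensional: conclusion. -/

set_option autoImplicit false

namespace Pool.Agent.W2helper15.WMP

open Filter Topology Set
open scoped BoundedContinuousFunction

universe u v w

variable {𝕜 : Type u} [RCLike 𝕜] {E : Type v} [NormedAddCommGroup E] [NormedSpace 𝕜 E]

/-- ultrafilter limits of bounded sequences of functionals -/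
theorem exists_ultralimit (U : Ultrafilter ℕ) (g : ℕ → (E →L[𝕜] 𝕜)) (R : ℝ)
    (hg : ∀ n, ‖g n‖ ≤ R) :
    ∃ G : E →L[𝕜] 𝕜, ∀ x, Tendsto (fun n => g n x) U (𝓝 (G x)) := by
  have hK := WeakDual.isCompact_closedBall (𝕜 := 𝕜) (E := E) 0 R
  have h1 : ∀ n, StrongDual.toWeakDual (g n) ∈
      (WeakDual.toStrongDual ⁻¹' Metric.closedBall (0 : StrongDual 𝕜 E) R) := by
    intro n
    simpa using hg n
  have h2 := (isCompact_iff_ultrafilter_le_nhds.1 hK)
    (U.map (fun n => StrongDual.toWeakDual (g n))) (by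
    rw [le_principal_iff]
    exact Filter.mem_map.2 (Filter.Eventually.of_forall h1))
  obtain ⟨G, -, hG⟩ := h2
  refine ⟨WeakDual.toStrongDual G, fun w => ?_⟩
  have h3 : Tendsto (fun n => StrongDual.toWeakDual (g n)) U (𝓝 G) := hG
  have h4 := ((WeakDual.eval_continuous w).tendsto G).comp h3
  exact h4

/-- dependent choice -/
theorem exists_chain {S : Type*} (a0 : S) (R : ℕ → S → S → Prop)
    (h : ∀ k a, ∃ b, R k a b) : ∃ s : ℕ → S, s 0 = a0 ∧ ∀ k, R k (s k) (s (k + 1)) := by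
  choose F hF using h
  exact ⟨fun n => Nat.rec a0 (fun k a => F k a) n, rfl, fun k => hF _ _⟩

/-- There is no weak*-null normalized sequence of functionals if `(E, ℓ_∞)` has the weak maximizing
property. -/
theorem no_null [Nontrivial E] (hW : HasWMP 𝕜 E (ℕ →ᵇ 𝕜)) (g : ℕ → E →L[𝕜] 𝕜)
    (hg : ∀ n, ‖g n‖ = 1) (hg0 : ∀ z, Tendsto (fun n => g n z) atTop (𝓝 0)) : False := by
  classical
  -- norming points
  have hone : Tendsto (fun k : ℕ => 1 / ((k : ℝ) + 1)) atTop (𝓝 0) :=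
    tendsto_one_div_add_atTop_nhds_zero_nat
  have hchy : ∀ n : ℕ, ∃ y : E, ‖y‖ = 1 ∧ 1 - 1 / ((n : ℝ) + 1) ≤ RCLike.re (g n y) ∧
      1 - 1 / ((n : ℝ) + 1) ≤ ‖g n y‖ := by
    intro n
    obtain ⟨x, hx1, hx2⟩ := exists_unit_norming (g n) (δ := 1 / ((n : ℝ) + 1)) (by positivity)
    rw [hg] at hx2
    obtain ⟨c, hc1, hc2⟩ := RCLike.exists_norm_eq_mul_self (g n x)
    refine ⟨c • x, by rw [norm_smul, hc1, hx1, one_mul], ?_, ?_⟩
    · rw [map_smul, smul_eq_mul, ← hc2, RCLike.ofReal_re]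
      exact hx2
    · rw [map_smul, norm_smul, hc1, one_mul]
      exact hx2
  choose y hy1 hy2 hy3 using hchy
  have hynull : ∀ φ : E →L[𝕜] 𝕜, Tendsto (fun n => φ (y n)) atTop (𝓝 0) := by
    refine weakly_null hW g (fun n => (hg n).le) ?_ y hy1 ?_
    · intro z _
      refine ⟨1 / 2, by norm_num, ?_⟩
      have h1 : Tendsto (fun n => ‖g n z‖) atTop (𝓝 0) := by simpa using (hg0 z).norm
      filter_upwards [h1.eventually_lt_const (show (0 : ℝ) < 1 / 2 by norm_num)] with n hn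
      exact hn.le
    · refine tendsto_of_tendsto_of_tendsto_of_le_of_le (g := fun k : ℕ => 1 - 1 / ((k : ℝ) + 1))
        (h := fun _ => (1 : ℝ)) ?_ tendsto_const_nhds hy3 ?_
      · simpa using hone.const_sub 1
      · intro n
        have := (g n).le_opNorm (y n)
        rwa [hy1, mul_one, hg] at this
  -- the recursive choice
  obtain ⟨s, hs0, hs⟩ := exists_chain (S := ℕ × (E →L[𝕜] 𝕜)) (0, 0)
    (fun k a b => a.1 < b.1 ∧ b.2 = a.2 + g b.1 ∧
      ‖b.2‖ ≤ max ‖a.2‖ 1 + (1 / 2) ^ (k + 1) ∧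
      (∀ m, m ≤ a.1 → ‖g b.1 (y m)‖ ≤ (1 / 2) ^ (k + 4)) ∧ ‖a.2 (y b.1)‖ ≤ 1 / 8 ∧
      3 / 4 ≤ RCLike.re (g b.1 (y b.1))) (by
    rintro k ⟨n, ψ⟩
    have h1 : ∀ᶠ m in atTop, ‖ψ + g m‖ ≤ max ‖ψ‖ 1 + (1 / 2) ^ (k + 1) :=
      norm_add_le_max hW g hg hg0 ψ (by positivity)
    have h2 : ∀ᶠ m in atTop, ∀ j ∈ Finset.range (n + 1), ‖g m (y j)‖ ≤ (1 / 2) ^ (k + 4) := by
      rw [Filter.eventually_all_finset]
      intro j _
      have h3 : Tendsto (fun m => ‖g m (y j)‖) atTop (𝓝 0) := by simpa using (hg0 (y j)).norm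
      filter_upwards [h3.eventually_lt_const
        (show (0 : ℝ) < (1 / 2) ^ (k + 4) by positivity)] with m hm
      exact hm.le
    have h3 : ∀ᶠ m in atTop, ‖ψ (y m)‖ ≤ 1 / 8 := by
      have h4 : Tendsto (fun m => ‖ψ (y m)‖) atTop (𝓝 0) := by simpa using (hynull ψ).norm
      filter_upwards [h4.eventually_lt_const (show (0 : ℝ) < 1 / 8 by norm_num)] with m hm
      exact hm.le
    have h4 : ∀ᶠ m : ℕ in atTop, 3 / 4 ≤ RCLike.re (g m (y m)) := by
      filter_upwards [hone.eventually_lt_const (show (0 : ℝ) < 1 / 4 by norm_num)] with m hm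
      have := hy2 m
      linarith
    obtain ⟨m, h1, h2, h3, h4, h5⟩ :=
      (h1.and (h2.and (h3.and (h4.and (eventually_gt_atTop n))))).exists
    exact ⟨(m, ψ + g m), h5, rfl, h1, fun j hj => h2 j (Finset.mem_range.2 (by omega)), h3, h4⟩)
  -- the norms are bounded
  have hbd : ∀ k, max ‖(s k).2‖ 1 ≤ 2 - (1 / 2) ^ k := by
    intro k
    induction k with
    | zero => rw [hs0]; simp; norm_num
    | succ k ih =>
      have h1 := (hs k).2.2.1
      have h2 : (1 / 2 : ℝ) ^ (k + 1) = (1 / 2) ^ k / 2 := by rw [pow_succ]; ring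
      have h3 : (1 / 2 : ℝ) ^ k ≤ 1 := pow_le_one₀ (by norm_num) (by norm_num)
      refine max_le ?_ ?_
      · linarith
      · rw [h2]; linarith
  have hmono : StrictMono fun k => (s k).1 := strictMono_nat_of_lt_succ fun k => (hs k).1
  -- the values at the points `y`
  have hval : ∀ j k, 1 / 2 + (1 / 2) ^ (j + k + 4) * 2 ≤
      RCLike.re ((s (j + 1 + k)).2 (y (s (j + 1)).1)) := by
    intro j k
    induction k with
    | zero =>
      obtain ⟨-, h1, -, -, h2, h3⟩ := hs j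
      rw [add_zero, h1]
      have h4 : RCLike.re (((s j).2 + g (s (j + 1)).1) (y (s (j + 1)).1)) =
          RCLike.re ((s j).2 (y (s (j + 1)).1)) + RCLike.re (g (s (j + 1)).1 (y (s (j + 1)).1)) := by
        show RCLike.re ((s j).2 (y (s (j + 1)).1) + g (s (j + 1)).1 (y (s (j + 1)).1)) = _
        rw [map_add]
      rw [h4]
      have h5 : -(1 / 8) ≤ RCLike.re ((s j).2 (y (s (j + 1)).1)) := by
        have := RCLike.abs_re_le_norm ((s j).2 (y (s (j + 1)).1))
        have := (abs_le.1 (this.trans h2)).1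
        linarith
      have h6 : (1 / 2 : ℝ) ^ (j + 0 + 4) ≤ 1 / 16 := by
        rw [add_zero, pow_add]
        have : (1 / 2 : ℝ) ^ j ≤ 1 := pow_le_one₀ (by norm_num) (by norm_num)
        calc (1 / 2 : ℝ) ^ j * (1 / 2) ^ 4 ≤ 1 * (1 / 2) ^ 4 :=
              mul_le_mul_of_nonneg_right this (by norm_num)
          _ = 1 / 16 := by norm_num
      linarith
    | succ k ih =>
      obtain ⟨-, h1, -, h2, -, -⟩ := hs (j + 1 + k)
      have e : j + 1 + (k + 1) = j + 1 + k + 1 := by ring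
      rw [e, h1]
      have h4 : RCLike.re (((s (j + 1 + k)).2 + g (s (j + 1 + k + 1)).1) (y (s (j + 1)).1)) =
          RCLike.re ((s (j + 1 + k)).2 (y (s (j + 1)).1)) +
            RCLike.re (g (s (j + 1 + k + 1)).1 (y (s (j + 1)).1)) := by
        show RCLike.re ((s (j + 1 + k)).2 (y (s (j + 1)).1) +
          g (s (j + 1 + k + 1)).1 (y (s (j + 1)).1)) = _
        rw [map_add]
      rw [h4]
      have h3 := h2 (s (j + 1)).1 (hmono.monotone (Nat.le_add_right _ _))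
      have h5 : -((1 / 2) ^ (j + 1 + k + 4)) ≤
          RCLike.re (g (s (j + 1 + k + 1)).1 (y (s (j + 1)).1)) := by
        have := RCLike.abs_re_le_norm (g (s (j + 1 + k + 1)).1 (y (s (j + 1)).1))
        have := (abs_le.1 (this.trans h3)).1
        linarith
      have h6 : (1 / 2 : ℝ) ^ (j + 1 + k + 4) = (1 / 2) ^ (j + k + 4) / 2 := by
        rw [show j + 1 + k + 4 = (j + k + 4) + 1 by ring, pow_succ]; ring
      have h7 : (1 / 2 : ℝ) ^ (j + (k + 1) + 4) = (1 / 2) ^ (j + k + 4) / 2 := by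
        rw [show j + (k + 1) + 4 = (j + k + 4) + 1 by ring, pow_succ]; ring
      have h8 : (0 : ℝ) ≤ (1 / 2) ^ (j + k + 4) := by positivity
      rw [h6] at h5
      rw [h7]
      linarith
  obtain ⟨Ψ, hΨ⟩ := exists_ultralimit (hyperfilter ℕ) (fun k => (s k).2) 2 (fun k => by
    have h1 := (le_max_left _ _).trans (hbd k)
    have h2 : (0 : ℝ) ≤ (1 / 2) ^ k := by positivity
    linarith)
  have hhyp : (hyperfilter ℕ : Filter ℕ) ≤ atTop := Nat.hyperfilter_le_atTop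
  have hΨ1 : ∀ j, 1 / 2 ≤ RCLike.re (Ψ (y (s (j + 1)).1)) := by
    intro j
    have h1 : Tendsto (fun k => RCLike.re ((s k).2 (y (s (j + 1)).1))) (hyperfilter ℕ : Filter ℕ)
        (𝓝 (RCLike.re (Ψ (y (s (j + 1)).1)))) :=
      (RCLike.continuous_re.tendsto _).comp (hΨ _)
    refine ge_of_tendsto h1 ?_
    filter_upwards [hhyp (eventually_ge_atTop (j + 1))] with k hk
    obtain ⟨l, rfl⟩ := Nat.exists_eq_add_of_le hk
    have h2 := hval j l
    have h3 : (0 : ℝ) ≤ (1 / 2) ^ (j + l + 4) * 2 := by positivity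
    linarith
  have h1 : Tendsto (fun j => ‖Ψ (y (s (j + 1)).1)‖) atTop (𝓝 0) := by
    have h2 : Tendsto (fun j => (s (j + 1)).1) atTop atTop :=
      hmono.tendsto_atTop.comp (tendsto_add_atTop_nat 1)
    simpa using ((hynull Ψ).comp h2).norm
  obtain ⟨j, hj⟩ := (h1.eventually_lt_const (show (0 : ℝ) < 1 / 2 by norm_num)).exists
  have h2 := hΨ1 j
  have h3 := (le_abs_self _).trans (RCLike.abs_re_le_norm (Ψ (y (s (j + 1)).1)))
  linarith

/-- If every functional on the infinite-dimensional Banach space `E` attains its norm, there is a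
normalized sequence of functionals which tends to `0` at every point. -/
theorem exists_null [CompleteSpace E] (hE : ¬ FiniteDimensional 𝕜 E)
    (hNA : ∀ f : E →L[𝕜] 𝕜, ∃ x, ‖x‖ = 1 ∧ ‖f x‖ = ‖f‖) :
    ∃ g : ℕ → (E →L[𝕜] 𝕜), (∀ n, ‖g n‖ = 1) ∧ ∀ z, Tendsto (fun n => g n z) atTop (𝓝 0) := by
  let _ : NormedSpace ℝ E := NormedSpace.restrictScalars ℝ 𝕜 E
  have _ : IsScalarTower ℝ 𝕜 E := ⟨fun r c x => by
    show (r • c) • x = (algebraMap ℝ 𝕜 r) • (c • x)
    rw [Algebra.smul_def, mul_smul]⟩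
  have hE' : ¬ FiniteDimensional ℝ E := fun h => hE (by
    have := h
    exact Module.Finite.of_restrictScalars_finite ℝ 𝕜 E)
  have hnorm : ∀ ψ : StrongDual ℝ E, ‖(ψ.extendRCLike : StrongDual 𝕜 E)‖ = ‖ψ‖ := fun ψ =>
    StrongDual.norm_extendRCLike ψ
  obtain ⟨h, h1, h2⟩ := exists_null_real (X := E) hE' (fun ψ => by
    obtain ⟨x, hx1, hx2⟩ := hNA (StrongDual.extendRCLike (𝕜 := 𝕜) ψ : StrongDual 𝕜 E)
    obtain ⟨c, hc1, hc2⟩ := RCLike.exists_norm_eq_mul_self
      ((StrongDual.extendRCLike (𝕜 := 𝕜) ψ : StrongDual 𝕜 E) x)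
    refine ⟨c • x, by rw [norm_smul, hc1, hx1, one_mul], ?_⟩
    rw [← StrongDual.re_extendRCLike_apply (𝕜 := 𝕜) ψ (c • x), map_smul, smul_eq_mul, ← hc2,
      RCLike.ofReal_re, hx2, hnorm])
  refine ⟨fun n => (StrongDual.extendRCLike (𝕜 := 𝕜) (h n) : StrongDual 𝕜 E), fun n => ?_,
    fun z => ?_⟩
  · rw [hnorm]; exact h1 n
  · have e : ∀ n, (StrongDual.extendRCLike (𝕜 := 𝕜) (h n) : StrongDual 𝕜 E) z =
        (h n z : 𝕜) - (RCLike.I : 𝕜) * (h n ((RCLike.I : 𝕜) • z) : 𝕜) := fun n =>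
      StrongDual.extendRCLike_apply _ _
    simp only [e]
    have h3 : Tendsto (fun n => ((h n z : ℝ) : 𝕜)) atTop (𝓝 ((0 : ℝ) : 𝕜)) :=
      (RCLike.continuous_ofReal.tendsto _).comp (h2 z)
    have h4 : Tendsto (fun n => ((h n ((RCLike.I : 𝕜) • z) : ℝ) : 𝕜)) atTop (𝓝 ((0 : ℝ) : 𝕜)) :=
      (RCLike.continuous_ofReal.tendsto _).comp (h2 _)
    simpa using h3.sub (h4.const_mul (RCLike.I : 𝕜))

/-- Functionals attain their norms if `(E, ℓ_∞)` has the weak maximizing property. -/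
theorem attains [Nontrivial E] (hW : HasWMP 𝕜 E (ℕ →ᵇ 𝕜)) (f : E →L[𝕜] 𝕜) :
    ∃ x, ‖x‖ = 1 ∧ ‖f x‖ = ‖f‖ := by
  set e : ℕ →ᵇ 𝕜 := BoundedContinuousFunction.const ℕ (1 : 𝕜) with he
  have hen : ‖e‖ = 1 := by
    rw [he, BoundedContinuousFunction.norm_const_eq, norm_one]
  set T : E →L[𝕜] (ℕ →ᵇ 𝕜) := f.smulRight e with hT
  have hTx : ∀ x, ‖T x‖ = ‖f x‖ := fun x => by
    show ‖f x • e‖ = _
    rw [norm_smul, hen, mul_one]
  have hTn : ‖T‖ = ‖f‖ := by
    rw [hT, ContinuousLinearMap.norm_smulRight_apply, hen, mul_one]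
  have hone : Tendsto (fun k : ℕ => 1 / ((k : ℝ) + 1)) atTop (𝓝 0) :=
    tendsto_one_div_add_atTop_nhds_zero_nat
  have hch : ∀ n : ℕ, ∃ x : E, ‖x‖ = 1 ∧ ‖f‖ - 1 / ((n : ℝ) + 1) ≤ ‖f x‖ := fun n =>
    exists_unit_norming f (by positivity)
  choose x hx1 hx2 using hch
  have hlim : Tendsto (fun n => ‖f (x n)‖) atTop (𝓝 ‖f‖) := by
    refine tendsto_of_tendsto_of_tendsto_of_le_of_le (g := fun k : ℕ => ‖f‖ - 1 / ((k : ℝ) + 1))
      (h := fun _ => ‖f‖) ?_ tendsto_const_nhds hx2 ?_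
    · simpa using hone.const_sub ‖f‖
    · intro n
      have := f.le_opNorm (x n)
      rwa [hx1, mul_one] at this
  by_cases hf : f = 0
  · refine ⟨x 0, hx1 0, ?_⟩
    rw [hf]; simp
  · obtain ⟨z, hz1, hz2⟩ := hW T ⟨x, hx1, by
      rw [hTn]
      exact hlim.congr fun n => (hTx _).symm, fun hnull => by
      have h1 := (hnull f).norm
      rw [norm_zero] at h1
      have h2 := tendsto_nhds_unique hlim h1
      exact hf (norm_eq_zero.1 h2)⟩
    exact ⟨z, hz1, by rw [← hTx, hz2, hTn]⟩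

/-- **Main theorem**: if the pair `(E, ℓ_∞)` has the weak maximizing property, then the Banach
space `E` is finite-dimensional. -/
theorem finiteDimensional_of_wmp [CompleteSpace E] (hW : HasWMP 𝕜 E (ℕ →ᵇ 𝕜)) :
    FiniteDimensional 𝕜 E := by
  by_contra hE
  have hnt : Nontrivial E := by
    by_contra hnt
    rw [not_nontrivial_iff_subsingleton] at hnt
    exact hE inferInstance
  obtain ⟨g, hg1, hg2⟩ := exists_null hE (attains hW)
  exact no_null hW g hg1 hg2

end Pool.Agent.W2helper15.WMP
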